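import Pool.Agent.helper17.CH.SpecV

/-! Row `ch:JB`: basic facts on Vinogradov's system. -/

set_option autoImplicit false

namespace Pool.Agent.CH

open Finset

/-! ### the number of solutions of a shifted equation -/

private theorem JB_shift {α G : Type} [AddCommGroup G] [DecidableEq G] (S : Finset α)
    (P : α → G) (v : G) :
    #((S ×ˢ S).filter fun w => P w.1 = P w.2 + v) ≤ #((S ×ˢ S).filter fun w => P w.1 = P w.2) := by
  classical
  set r : G → ℕ := fun u => #(S.filter fun x => P x = u) with hr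
  have key : ∀ v : G, #((S ×ˢ S).filter fun w => P w.1 = P w.2 + v) =
      ∑ u ∈ S.image P, r u * r (u + v) := by
    intro v
    have h1 : #((S ×ˢ S).filter fun w => P w.1 = P w.2 + v) = ∑ y ∈ S, r (P y + v) := by
      rw [Finset.card_filter, Finset.sum_product_right]
      refine Finset.sum_congr rfl fun y _ => ?_
      rw [hr]
      simp only [Finset.card_filter]
    rw [h1, ← Finset.sum_fiberwise_of_maps_to (s := S) (t := S.image P) (g := P)
      (fun x hx => Finset.mem_image_of_mem P hx)]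
    refine Finset.sum_congr rfl fun u _ => ?_
    rw [Finset.sum_congr rfl (g := fun _ => r (u + v))]
    · rw [Finset.sum_const, smul_eq_mul]
    · intro y hy
      rw [(Finset.mem_filter.1 hy).2]
  have h0 := key 0
  simp only [add_zero] at h0
  rw [key v, h0]
  have hz : ∀ u : G, u ∉ S.image P → r u = 0 := by
    intro u hu
    rw [hr]
    simp only [Finset.card_eq_zero, Finset.filter_eq_empty_iff]
    intro x hx hxu
    exact hu (Finset.mem_image.2 ⟨x, hx, hxu⟩)
  have hshift : ∑ u ∈ S.image P, r (u + v) * r (u + v) ≤ ∑ u ∈ S.image P, r u * r u := by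
    have e1 : ∑ u ∈ S.image P, r (u + v) * r (u + v) =
        ∑ u ∈ (S.image P).image (fun u => u + v), r u * r u := by
      refine (Finset.sum_image (s := S.image P) (g := fun u => u + v)
        (f := fun u => r u * r u) ?_).symm
      intro a _ b _ hab
      exact add_right_cancel hab
    rw [e1]
    have e2 : ∑ u ∈ (S.image P).image (fun u => u + v), r u * r u =
        ∑ u ∈ ((S.image P).image (fun u => u + v)).filter (fun u => u ∈ S.image P), r u * r u := by
      rw [Finset.sum_filter]
      refine Finset.sum_congr rfl fun u _ => ?_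
      split_ifs with h
      · rfl
      · rw [hz u h, mul_zero]
    rw [e2]
    refine Finset.sum_le_sum_of_subset fun u hu => ?_
    exact (Finset.mem_filter.1 hu).2
  have h2 : 2 * ∑ u ∈ S.image P, r u * r (u + v) ≤
      ∑ u ∈ S.image P, r u * r u + ∑ u ∈ S.image P, r (u + v) * r (u + v) := by
    rw [Finset.mul_sum, ← Finset.sum_add_distrib]
    refine Finset.sum_le_sum fun u _ => ?_
    have : (2 * ((r u : ℤ) * (r (u + v) : ℤ))) ≤ (r u : ℤ) * r u + (r (u + v) : ℤ) * r (u + v) := by
      nlinarith [sq_nonneg ((r u : ℤ) - (r (u + v) : ℤ))]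
    exact_mod_cast this
  omega

/-! ### the system as an equation -/

/-- the power sums -/
private def JB_P (s k : ℕ) (x : Fin s → ℤ) : Fin k → ℤ := fun j => ∑ i, x i ^ ((j : ℕ) + 1)

private theorem JB_iff (s k : ℕ) (x y : Fin s → ℤ) (v : ℕ → ℤ) :
    (∀ j ∈ Icc (1 : ℕ) k, (∑ i, x i ^ j : ℤ) = ∑ i, y i ^ j + v j) ↔
      JB_P s k x = JB_P s k y + fun j : Fin k => v ((j : ℕ) + 1) := by
  constructor
  · intro h
    funext j
    have := h ((j : ℕ) + 1) (Finset.mem_Icc.2 ⟨by omega, by have := j.2; omega⟩)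
    simpa [JB_P] using this
  · intro h j hj
    obtain ⟨h1, h2⟩ := Finset.mem_Icc.1 hj
    have := congrFun h ⟨j - 1, by omega⟩
    simp only [JB_P, Pi.add_apply, Nat.sub_add_cancel h1] at this
    exact this

private theorem JB_iff0 (s k : ℕ) (x y : Fin s → ℤ) :
    (∀ j ∈ Icc (1 : ℕ) k, (∑ i, x i ^ j : ℤ) = ∑ i, y i ^ j) ↔ JB_P s k x = JB_P s k y := by
  have := JB_iff s k x y 0
  have e : (JB_P s k y + fun j : Fin k => (0 : ℕ → ℤ) ((j : ℕ) + 1)) = JB_P s k y := by
    funext j
    simp
  rw [e] at this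
  simpa using this

private theorem JB_iff1 (s k : ℕ) (x : Fin s → ℤ) (v : ℕ → ℤ) :
    (∀ j ∈ Icc (1 : ℕ) k, (∑ i, x i ^ j : ℤ) = v j) ↔
      JB_P s k x = fun j : Fin k => v ((j : ℕ) + 1) := by
  constructor
  · intro h
    funext j
    have := h ((j : ℕ) + 1) (Finset.mem_Icc.2 ⟨by omega, by have := j.2; omega⟩)
    simpa [JB_P] using this
  · intro h j hj
    obtain ⟨h1, h2⟩ := Finset.mem_Icc.1 hj
    have := congrFun h ⟨j - 1, by omega⟩
    simp only [JB_P, Nat.sub_add_cancel h1] at this
    exact this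

private theorem JB_JJ (s k : ℕ) (A : Finset ℤ) : JJ s k A =
    #(((Fintype.piFinset fun _ : Fin s => A) ×ˢ (Fintype.piFinset fun _ : Fin s => A)).filter
      fun w : (Fin s → ℤ) × (Fin s → ℤ) => JB_P s k w.1 = JB_P s k w.2) := by
  unfold JJ
  refine congrArg Finset.card ?_
  ext w
  simp only [Finset.mem_filter, JB_iff0]

/-! ### translation -/

private theorem JB_lin {s k : ℕ} {x y : Fin s → ℤ} (c d : ℤ)
    (h : ∀ j ∈ Icc (1 : ℕ) k, (∑ i, x i ^ j : ℤ) = ∑ i, y i ^ j) :
    ∀ j ∈ Icc (1 : ℕ) k, (∑ i, (d * x i + c) ^ j : ℤ) = ∑ i, (d * y i + c) ^ j := by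
  intro j hj
  obtain ⟨h1, h2⟩ := Finset.mem_Icc.1 hj
  have e : ∀ z : Fin s → ℤ, (∑ i, (d * z i + c) ^ j : ℤ) =
      ∑ m ∈ range (j + 1), (d ^ m * c ^ (j - m) * (j.choose m : ℤ)) * ∑ i, z i ^ m := by
    intro z
    simp only [add_pow, mul_pow]
    rw [Finset.sum_comm]
    refine Finset.sum_congr rfl fun m _ => ?_
    rw [Finset.mul_sum]
    refine Finset.sum_congr rfl fun i _ => ?_
    ring
  rw [e x, e y]
  refine Finset.sum_congr rfl fun m hm => ?_
  have hm' : m ≤ j := by
    have := Finset.mem_range.1 hm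
    omega
  rcases Nat.eq_zero_or_pos m with rfl | hmp
  · simp
  · rw [h m (Finset.mem_Icc.2 ⟨hmp, hm'.trans h2⟩)]

private theorem JB_lin_iff {s k : ℕ} (x y : Fin s → ℤ) (c d : ℤ) (hd : d ≠ 0) :
    (∀ j ∈ Icc (1 : ℕ) k, (∑ i, (d * x i + c) ^ j : ℤ) = ∑ i, (d * y i + c) ^ j) ↔
      ∀ j ∈ Icc (1 : ℕ) k, (∑ i, x i ^ j : ℤ) = ∑ i, y i ^ j := by
  refine ⟨fun h => ?_, JB_lin c d⟩
  have h2 := JB_lin (-c) 1 h
  intro j hj
  have h3 := h2 j hj
  have e : ∀ z : Fin s → ℤ, (∑ i, (1 * (d * z i + c) + -c) ^ j : ℤ) = d ^ j * ∑ i, z i ^ j := by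
    intro z
    rw [Finset.mul_sum]
    refine Finset.sum_congr rfl fun i _ => ?_
    rw [← mul_pow]
    ring
  rw [e x, e y] at h3
  exact mul_left_cancel₀ (pow_ne_zero j hd) h3

private theorem JB_trans (s k : ℕ) (A : Finset ℤ) (c d : ℤ) (hd : d ≠ 0) :
    JJ s k (A.image fun x => d * x + c) = JJ s k A := by
  unfold JJ
  symm
  have hinj : Function.Injective (fun x : ℤ => d * x + c) := by
    intro a b hab
    have : d * a = d * b := by
      have h : d * a + c = d * b + c := hab
      linarith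
    exact mul_left_cancel₀ hd this
  refine Finset.card_nbij (fun w => (fun i => d * w.1 i + c, fun i => d * w.2 i + c)) ?_ ?_ ?_
  · intro w hw
    simp only [Finset.coe_filter, Set.mem_ofPred_eq, Finset.mem_product, Fintype.mem_piFinset,
      Finset.mem_image] at hw ⊢
    refine ⟨⟨fun i => ⟨w.1 i, hw.1.1 i, rfl⟩, fun i => ⟨w.2 i, hw.1.2 i, rfl⟩⟩, ?_⟩
    exact JB_lin c d hw.2
  · intro w _ w' _ h
    have h1 := congrArg Prod.fst h
    have h2 := congrArg Prod.snd h
    refine Prod.ext (funext fun i => ?_) (funext fun i => ?_)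
    · exact hinj (congrFun h1 i)
    · exact hinj (congrFun h2 i)
  · intro w hw
    simp only [Finset.coe_filter, Set.mem_ofPred_eq, Finset.mem_product, Fintype.mem_piFinset,
      Finset.mem_image] at hw
    obtain ⟨⟨hx, hy⟩, hj⟩ := hw
    choose x hx1 hx2 using hx
    choose y hy1 hy2 using hy
    have ew : w = (fun i => d * x i + c, fun i => d * y i + c) :=
      Prod.ext (funext fun i => (hx2 i).symm) (funext fun i => (hy2 i).symm)
    refine ⟨(x, y), ?_, ew.symm⟩
    simp only [Finset.coe_filter, Set.mem_ofPred_eq, Finset.mem_product, Fintype.mem_piFinset]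
    refine ⟨⟨hx1, hy1⟩, ?_⟩
    rw [ew] at hj
    exact (JB_lin_iff x y c d hd).1 hj

/-! ### Newton -/

private theorem JB_esymm {k : ℕ} (x y : Fin k → ℤ)
    (h : ∀ j ∈ Icc (1 : ℕ) k, (∑ i, x i ^ j : ℤ) = ∑ i, y i ^ j) :
    ∀ j ≤ k, MvPolynomial.aeval x (MvPolynomial.esymm (Fin k) ℤ j) =
      MvPolynomial.aeval y (MvPolynomial.esymm (Fin k) ℤ j) := by
  intro j
  induction j using Nat.strong_induction_on with
  | _ j ih =>
    intro hjk
    rcases Nat.eq_zero_or_pos j with rfl | hj
    · simp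
    · have e : ∀ z : Fin k → ℤ, (j : ℤ) * MvPolynomial.aeval z (MvPolynomial.esymm (Fin k) ℤ j) =
          (-1) ^ (j + 1) * ∑ a ∈ (antidiagonal j).filter (fun a => a.1 < j),
            (-1) ^ a.1 * MvPolynomial.aeval z (MvPolynomial.esymm (Fin k) ℤ a.1) *
              ∑ i, z i ^ a.2 := by
        intro z
        have := congrArg (MvPolynomial.aeval z) (MvPolynomial.mul_esymm_eq_sum (Fin k) ℤ j)
        simpa [MvPolynomial.psum, map_sum, map_mul, map_pow] using this
      have e2 : (j : ℤ) * MvPolynomial.aeval x (MvPolynomial.esymm (Fin k) ℤ j) =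
          (j : ℤ) * MvPolynomial.aeval y (MvPolynomial.esymm (Fin k) ℤ j) := by
        rw [e x, e y]
        congr 1
        refine Finset.sum_congr rfl fun a ha => ?_
        obtain ⟨ha1, ha2⟩ := Finset.mem_filter.1 ha
        have ha3 := Finset.HasAntidiagonal.mem_antidiagonal.1 ha1
        rw [ih a.1 ha2 (by omega), h a.2 (Finset.mem_Icc.2 ⟨by omega, by omega⟩)]
      exact mul_left_cancel₀ (by exact_mod_cast hj.ne') e2

private theorem JB_multiset {k : ℕ} (x y : Fin k → ℤ)
    (h : ∀ j ∈ Icc (1 : ℕ) k, (∑ i, x i ^ j : ℤ) = ∑ i, y i ^ j) :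
    (univ : Finset (Fin k)).val.map x = (univ : Finset (Fin k)).val.map y := by
  have hs : ∀ j ≤ k, ((univ : Finset (Fin k)).val.map x).esymm j =
      ((univ : Finset (Fin k)).val.map y).esymm j := by
    intro j hj
    have := JB_esymm x y h j hj
    rwa [MvPolynomial.aeval_esymm_eq_multiset_esymm, MvPolynomial.aeval_esymm_eq_multiset_esymm]
      at this
  have hp : (((univ : Finset (Fin k)).val.map x).map fun t => Polynomial.X - Polynomial.C t).prod =
      (((univ : Finset (Fin k)).val.map y).map fun t => Polynomial.X - Polynomial.C t).prod := by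
    rw [Multiset.prod_X_sub_X_eq_sum_esymm, Multiset.prod_X_sub_X_eq_sum_esymm]
    simp only [Multiset.card_map, Finset.card_val, Finset.card_univ, Fintype.card_fin]
    refine Finset.sum_congr rfl fun j hj => ?_
    rw [hs j (by have := Finset.mem_range.1 hj; omega)]
  have hr := congrArg Polynomial.roots hp
  rwa [Polynomial.roots_multiset_prod_X_sub_C, Polynomial.roots_multiset_prod_X_sub_C] at hr

private theorem JB_perm {k : ℕ} (x y : Fin k → ℤ)
    (h : (univ : Finset (Fin k)).val.map x = (univ : Finset (Fin k)).val.map y) :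
    ∃ σ : Equiv.Perm (Fin k), y = x ∘ σ := by
  classical
  have hc : ∀ a : ℤ, Nonempty ({i // y i = a} ≃ {i // x i = a}) := by
    intro a
    refine ⟨Fintype.equivOfCardEq ?_⟩
    have h1 := congrArg (Multiset.count a) h
    rw [Multiset.count_map, Multiset.count_map] at h1
    rw [Fintype.card_subtype, Fintype.card_subtype]
    have e1 : ∀ z : Fin k → ℤ, Multiset.card (Multiset.filter (fun i => a = z i)
        (univ : Finset (Fin k)).val) = #(univ.filter fun i => z i = a) := by
      intro z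
      rw [← Finset.filter_val, Finset.card_val]
      refine congrArg Finset.card ?_
      ext i
      simp [eq_comm]
    rw [e1, e1] at h1
    exact h1.symm
  have e : ∀ a : ℤ, {i // y i = a} ≃ {i // x i = a} := fun a => Classical.choice (hc a)
  let σ : Fin k ≃ Fin k := (Equiv.sigmaFiberEquiv y).symm.trans
    ((Equiv.sigmaCongrRight e).trans (Equiv.sigmaFiberEquiv x))
  refine ⟨σ, funext fun i => ?_⟩
  have : x (σ i) = y i := (e (y i) ⟨i, rfl⟩).2
  exact this.symm

private theorem JB_fib (k : ℕ) (A : Finset ℤ) (x : Fin k → ℤ) :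
    #((Fintype.piFinset fun _ : Fin k => A).filter fun y => JB_P k k x = JB_P k k y) ≤
      k.factorial := by
  classical
  calc #((Fintype.piFinset fun _ : Fin k => A).filter fun y => JB_P k k x = JB_P k k y)
      ≤ #((univ : Finset (Equiv.Perm (Fin k))).image fun σ : Equiv.Perm (Fin k) => x ∘ (σ : Fin k → Fin k)) := by
        refine Finset.card_le_card fun y hy => ?_
        have h := (JB_iff0 k k x y).2 (Finset.mem_filter.1 hy).2
        obtain ⟨σ, hσ⟩ := JB_perm x y (JB_multiset x y h)
        exact Finset.mem_image.2 ⟨σ, Finset.mem_univ _, hσ.symm⟩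
    _ ≤ #(univ : Finset (Equiv.Perm (Fin k))) := Finset.card_image_le
    _ = k.factorial := by rw [Finset.card_univ, Fintype.card_perm, Fintype.card_fin]

private theorem JB_pi (s : ℕ) (A : Finset ℤ) :
    #((Fintype.piFinset fun _ : Fin s => A) : Finset (Fin s → ℤ)) = #A ^ s := by
  rw [Fintype.card_piFinset]
  simp

theorem JB : JB_stmt := by
  refine ⟨?_, ?_, ?_, ?_, ?_, ?_⟩
  · intro s k A B hAB
    unfold JJ
    refine Finset.card_le_card (Finset.filter_subset_filter _ (Finset.product_subset_product ?_ ?_))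
    · exact Fintype.piFinset_subset _ _ fun _ => hAB
    · exact Fintype.piFinset_subset _ _ fun _ => hAB
  · intro s k A c d hd
    exact JB_trans s k A c d hd
  · intro s k A v
    rw [JB_JJ]
    have h := JB_shift (Fintype.piFinset fun _ : Fin s => A) (JB_P s k)
      (fun j : Fin k => v ((j : ℕ) + 1))
    refine le_trans (le_of_eq (congrArg Finset.card ?_)) h
    ext w
    simp only [Finset.mem_filter, JB_iff]
  · intro s k A v
    rw [JB_JJ, sq, ← Finset.card_product]
    refine Finset.card_le_card fun w hw => ?_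
    obtain ⟨h1, h2⟩ := Finset.mem_product.1 hw
    obtain ⟨h1a, h1b⟩ := Finset.mem_filter.1 h1
    obtain ⟨h2a, h2b⟩ := Finset.mem_filter.1 h2
    refine Finset.mem_filter.2 ⟨Finset.mem_product.2 ⟨h1a, h2a⟩, ?_⟩
    rw [(JB_iff1 s k w.1 v).1 h1b, (JB_iff1 s k w.2 v).1 h2b]
  · intro k A
    rw [JB_JJ, Finset.card_filter, Finset.sum_product]
    calc ∑ x ∈ Fintype.piFinset fun _ : Fin k => A, ∑ y ∈ Fintype.piFinset fun _ : Fin k => A,
          (if JB_P k k x = JB_P k k y then 1 else 0)
        ≤ ∑ _x ∈ Fintype.piFinset fun _ : Fin k => A, k.factorial := by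
          refine Finset.sum_le_sum fun x _ => ?_
          rw [← Finset.card_filter]
          exact JB_fib k A x
      _ = k.factorial * #A ^ k := by
          rw [Finset.sum_const, smul_eq_mul, JB_pi, mul_comm]
  · intro s k A
    unfold JJ
    refine (Finset.card_filter_le _ _).trans ?_
    rw [Finset.card_product, JB_pi, two_mul, pow_add]

end Pool.Agent.CH
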